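import Pool.Agent.Y184.NT.St

/-!
# The generic fibre lies on a line over the base (`StLine` from `StCB`)
-/

set_option autoImplicit false

open Module

namespace Pool.Agent.Y614.NT

open Pool.Agent.Y184.NT

/-- embeddings are determined by their values at generators -/
lemma emb_ext {L K Ω : Type} [Field L] [Field K] [Field Ω] [Algebra L K] [Algebra L Ω] {N : ℕ}
    (x : Fin N → K) (hgen : IntermediateField.adjoin L (Set.range x) = ⊤)
    (σ σ' : K →ₐ[L] Ω) (h : ∀ j, σ (x j) = σ' (x j)) : σ = σ' := by
  ext y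
  have hy : y ∈ IntermediateField.adjoin L (Set.range x) := by
    rw [hgen]
    exact IntermediateField.mem_top
  induction hy using IntermediateField.adjoin_induction with
  | mem z hz =>
    obtain ⟨j, rfl⟩ := hz
    exact h j
  | algebraMap z => rw [AlgHom.commutes, AlgHom.commutes]
  | add a b _ _ ha hb => rw [map_add, map_add, ha, hb]
  | inv a _ ha => rw [map_inv₀, map_inv₀, ha]
  | mul a b _ _ ha hb => rw [map_mul, map_mul, ha, hb]

/-- the relations for all products of linear forms -/
lemma relations {L K Ω : Type} [Field L] [Field K] [Field Ω] [IsAlgClosed Ω] [Algebra L K]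
    [Algebra L Ω] [FiniteDimensional L K] [Algebra.IsSeparable L K] {N m : ℕ}
    (x : Fin N → K) (h : K)
    (htr : ∀ f : Fin m → Fin N, Algebra.trace L K ((∏ k, x (f k)) * h) = 0)
    (l : Fin m → Module.Dual Ω (Fin N → Ω)) :
    ∑ σ : K →ₐ[L] Ω, σ h * ∏ k, l k (fun j => σ (x j)) = 0 := by
  classical
  have e1 : ∀ (σ : K →ₐ[L] Ω) (k : Fin m), l k (fun j => σ (x j)) =
      ∑ j, σ (x j) * l k (Pi.single j 1) := by
    intro σ k
    conv_lhs => rw [pi_eq_sum_univ' (fun j => σ (x j))]
    rw [map_sum]
    refine Finset.sum_congr rfl fun j _ => ?_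
    rw [map_smul, smul_eq_mul]
  have e2 : ∀ σ : K →ₐ[L] Ω, σ h * ∏ k, l k (fun j => σ (x j)) =
      ∑ f : Fin m → Fin N, (∏ k, l k (Pi.single (f k) 1)) * σ ((∏ k, x (f k)) * h) := by
    intro σ
    simp only [e1]
    rw [Finset.prod_univ_sum, Fintype.piFinset_univ, Finset.mul_sum]
    refine Finset.sum_congr rfl fun f _ => ?_
    rw [Finset.prod_mul_distrib, map_mul, map_prod]
    ring
  simp only [e2]
  rw [Finset.sum_comm]
  refine Finset.sum_eq_zero fun f _ => ?_
  rw [← Finset.mul_sum, ← trace_eq_sum_embeddings Ω, htr f, map_zero, mul_zero]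

theorem stLine (hCB : StCB) : StLine := by
  intro L K _ _ _ _ _ N m x j0 hj0 hgen h hh htr hfin
  classical
  let Ω := AlgebraicClosure L
  have hcard : Fintype.card (K →ₐ[L] Ω) = finrank L K := AlgHom.card L K Ω
  obtain ⟨hm, hline⟩ := hCB Ω N (K →ₐ[L] Ω) m Finset.univ (fun σ j => σ (x j)) (fun σ => σ h)
    (by
      rw [← Finset.card_pos, Finset.card_univ, hcard]
      exact finrank_pos)
    (fun σ _ => by
      rw [_root_.map_ne_zero]
      exact hh)
    (fun σ _ h0 => by
      have := congrFun h0 j0
      simp [hj0] at this)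
    (fun σ _ σ' _ hne => by
      rw [LinearIndependent.pair_iff]
      intro s t hst
      have h1 := congrFun hst j0
      simp only [Pi.add_apply, Pi.smul_apply, smul_eq_mul, hj0, map_one, mul_one,
        Pi.zero_apply] at h1
      have h2 : t = -s := by linear_combination h1
      subst h2
      by_cases hs : s = 0
      · simp [hs]
      · exfalso
        apply hne
        apply emb_ext x hgen
        intro j
        have h3 := congrFun hst j
        simp only [Pi.add_apply, Pi.smul_apply, smul_eq_mul, Pi.zero_apply] at h3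
        have h4 : s * (σ (x j) - σ' (x j)) = 0 := by linear_combination h3
        rcases mul_eq_zero.1 h4 with h5 | h5
        · exact absurd h5 hs
        · exact sub_eq_zero.1 h5)
    (fun l => relations x h htr l)
    (by rw [Finset.card_univ, hcard]; exact hfin)
  rw [Finset.card_univ, hcard] at hm
  refine ⟨hm, ?_⟩
  -- a nonconstant coordinate
  obtain ⟨j1, hj1⟩ : ∃ j1, x j1 ∉ Set.range (algebraMap L K) := by
    by_contra hcon
    push Not at hcon
    have h1 : IntermediateField.adjoin L (Set.range x) = ⊥ := by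
      rw [IntermediateField.adjoin_eq_bot_iff]
      rintro _ ⟨j, rfl⟩
      rw [SetLike.mem_coe, IntermediateField.mem_bot]
      exact hcon j
    rw [hgen] at h1
    have h2 : finrank L K = 1 := by
      rw [← IntermediateField.finrank_top', h1]
      exact IntermediateField.finrank_bot
    omega
  set τ := x j1 with hτ
  -- the Galois group of the algebraic closure
  have hfix : ∀ p : Ω, (∀ g : Ω ≃ₐ[L] Ω, g p = p) → p ∈ Set.range (algebraMap L Ω) := by
    intro p hp
    exact (InfiniteGalois.mem_range_algebraMap_iff_fixed p).2 hp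
  have hact : ∀ (g : Ω ≃ₐ[L] Ω) (σ : K →ₐ[L] Ω) (y : K),
      ((g : Ω →ₐ[L] Ω).comp σ) y = g (σ y) := fun g σ y => rfl
  -- two embeddings with different values at `τ`
  obtain ⟨σ1, σ2, h12⟩ : ∃ σ1 σ2 : K →ₐ[L] Ω, σ1 τ ≠ σ2 τ := by
    by_contra hcon
    push Not at hcon
    have hne : Nonempty (K →ₐ[L] Ω) := by
      rw [← Fintype.card_pos_iff, hcard]
      exact finrank_pos
    obtain ⟨σ⟩ := hne
    obtain ⟨z, hz⟩ := hfix (σ τ) fun g => by
      rw [← hact]
      exact hcon _ _
    apply hj1
    refine ⟨z, ?_⟩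
    apply σ.toRingHom.injective
    change σ (algebraMap L K z) = σ τ
    rw [AlgHom.commutes, hz]
  have hτne : σ1 τ - σ2 τ ≠ 0 := sub_ne_zero.2 h12
  have key : ∀ j, ∃ p q : L, x j = algebraMap L K p + τ * algebraMap L K q := by
    intro j
    set q : Ω := (σ1 (x j) - σ2 (x j)) / (σ1 τ - σ2 τ) with hq
    set p : Ω := σ1 (x j) - q * σ1 τ with hp
    have hall : ∀ σ : K →ₐ[L] Ω, σ (x j) = p + q * σ τ := by
      intro σ
      have hne12 : σ1 ≠ σ2 := fun e => h12 (by rw [e])
      have h1 := hline σ1 (Finset.mem_univ _) σ2 (Finset.mem_univ _) hne12 σ (Finset.mem_univ _)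
      rw [Submodule.mem_span_pair] at h1
      obtain ⟨s, t, hst⟩ := h1
      have c0 := congrFun hst j0
      have c1 := congrFun hst j1
      have c2 := congrFun hst j
      simp only [Pi.add_apply, Pi.smul_apply, smul_eq_mul, hj0, map_one, mul_one] at c0 c1 c2
      rw [← hτ] at c1
      have hs : s = 1 - t := by linear_combination c0
      have hqm : q * (σ1 τ - σ2 τ) = σ1 (x j) - σ2 (x j) := by
        rw [hq, div_mul_cancel₀ _ hτne]
      rw [← c2, ← c1, hs, hp]
      linear_combination t * hqm
    have hg : ∀ (g : Ω ≃ₐ[L] Ω), g q = q ∧ g p = p := by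
      intro g
      have hσ' : ∀ σ : K →ₐ[L] Ω, g (σ (x j)) = p + q * g (σ τ) := fun σ =>
        hall ((g : Ω →ₐ[L] Ω).comp σ)
      have e1 := hσ' σ1
      have e2 := hσ' σ2
      rw [hall σ1, map_add, map_mul] at e1
      rw [hall σ2, map_add, map_mul] at e2
      have hgne : g (σ1 τ) - g (σ2 τ) ≠ 0 := by
        rw [← map_sub, _root_.map_ne_zero]
        exact hτne
      have e3 : (g q - q) * (g (σ1 τ) - g (σ2 τ)) = 0 := by linear_combination e1 - e2
      have e4 : g q = q := by
        rcases mul_eq_zero.1 e3 with e | e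
        · exact sub_eq_zero.1 e
        · exact absurd e hgne
      refine ⟨e4, ?_⟩
      rw [e4] at e1
      linear_combination e1
    obtain ⟨q', hq'⟩ := hfix q fun g => (hg g).1
    obtain ⟨p', hp'⟩ := hfix p fun g => (hg g).2
    refine ⟨p', q', ?_⟩
    apply σ1.toRingHom.injective
    change σ1 (x j) = σ1 (algebraMap L K p' + τ * algebraMap L K q')
    rw [hall σ1, map_add, map_mul, AlgHom.commutes, AlgHom.commutes, hq', hp']
    ring
  choose a b hab using key
  have uniq : ∀ p q : L, algebraMap L K p + τ * algebraMap L K q = 0 → p = 0 ∧ q = 0 := by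
    intro p q e
    by_cases hq : q = 0
    · subst hq
      rw [map_zero, mul_zero, add_zero] at e
      exact ⟨(map_eq_zero _).1 e, rfl⟩
    · exfalso
      apply hj1
      refine ⟨-p / q, ?_⟩
      have hq' : algebraMap L K q ≠ 0 := by rwa [_root_.map_ne_zero]
      rw [map_div₀, map_neg, div_eq_iff hq']
      linear_combination -e
  have u0 := uniq (a j0 - 1) (b j0) (by
    have := hab j0
    rw [hj0] at this
    rw [map_sub, map_one]
    linear_combination -this)
  have u1 := uniq (a j1) (b j1 - 1) (by
    have := hab j1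
    rw [← hτ] at this
    rw [map_sub, map_one]
    linear_combination -this)
  refine ⟨a, b, τ, hab, ?_, ?_⟩
  · rw [eq_top_iff, ← hgen, IntermediateField.adjoin_le_iff]
    rintro _ ⟨j, rfl⟩
    rw [SetLike.mem_coe, hab j]
    exact add_mem (IntermediateField.algebraMap_mem _ _)
      (mul_mem (IntermediateField.mem_adjoin_simple_self L τ)
        (IntermediateField.algebraMap_mem _ _))
  · rw [LinearIndependent.pair_iff]
    intro s t hst
    have c0 := congrFun hst j0
    have c1 := congrFun hst j1
    simp only [Pi.add_apply, Pi.smul_apply, smul_eq_mul, Pi.zero_apply] at c0 c1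
    have a0 : a j0 = 1 := sub_eq_zero.1 u0.1
    have b1 : b j1 = 1 := sub_eq_zero.1 u1.2
    rw [a0, u0.2] at c0
    rw [u1.1, b1] at c1
    refine ⟨?_, ?_⟩
    · simpa using c0
    · simpa using c1

end Pool.Agent.Y614.NT
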