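import Pool.Agent.Y517.NT.Ch

/-!
A smooth function in a chart extends from a neighbourhood of a point.
-/

set_option autoImplicit false

open Set Filter Topology
open scoped Manifold ContDiff

namespace Pool.Agent.Y614.NT

open Pool.Agent.Y501.SY Pool.Agent.Y517.NT

theorem t_GLOB : S_GLOB := by
  intro d X _ _ _ _ x₀ q V g hV hVt hg hq hqV
  obtain ⟨c, hc⟩ : ∃ c, c = chartAt (E d) x₀ := ⟨_, rfl⟩
  rw [← hc] at hVt hq hqV ⊢
  have hA : IsOpen (c.source ∩ c ⁻¹' V) := c.isOpen_inter_preimage hV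
  have hqA : c.source ∩ c ⁻¹' V ∈ 𝓝 q := hA.mem_nhds ⟨hq, hqV⟩
  obtain ⟨b, -, hb⟩ : ∃ b : SmoothBumpFunction (𝓡 d) q, True ∧ tsupport b ⊆ c.source ∩ c ⁻¹' V :=
    (SmoothBumpFunction.nhds_basis_tsupport (I := 𝓡 d) q).mem_iff.1 hqA
  have hcs : ∀ x ∈ c.source, ContMDiffAt (𝓡 d) (𝓡 d) ∞ c x := by
    intro x hx
    rw [hc] at hx ⊢
    exact (contMDiffOn_chart (I := 𝓡 d)).contMDiffAt ((chartAt (E d) x₀).open_source.mem_nhds hx)
  have hgs : ∀ y ∈ V, ContMDiffAt (𝓡 d) 𝓘(ℝ, ℝ) ∞ g y := fun y hy =>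
    (hg.contDiffAt (hV.mem_nhds hy)).contMDiffAt
  have hgc : ∀ x ∈ c.source ∩ c ⁻¹' V, ContMDiffAt (𝓡 d) 𝓘(ℝ, ℝ) ∞ (g ∘ c) x := fun x hx =>
    ContMDiffAt.comp x (hgs _ hx.2) (hcs x hx.1)
  have hG : ContMDiff (𝓡 d) 𝓘(ℝ, ℝ) ∞ (fun x => b x * (g ∘ c) x) := by
    refine contMDiff_of_tsupport fun x hx => ?_
    have hx1 : x ∈ c.source ∩ c ⁻¹' V := hb (tsupport_mul_subset_left hx)
    have h1 : ContMDiffAt (𝓡 d) 𝓘(ℝ, ℝ) ∞ b x := b.contMDiff.contMDiffAt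
    exact h1.smul (hgc x hx1)
  have hO : IsOpen ((c.source ∩ c ⁻¹' V) ∩ interior {x | b x = 1}) := hA.inter isOpen_interior
  refine ⟨fun x => b x * (g ∘ c) x, (c.source ∩ c ⁻¹' V) ∩ interior {x | b x = 1}, hG, hO,
    ⟨⟨hq, hqV⟩, mem_interior_iff_mem_nhds.2 b.eventuallyEq_one⟩,
    inter_subset_left.trans inter_subset_left, ?_, ?_⟩
  · intro x hx
    have h0 : x ∈ {x | b x = 1} := interior_subset hx.2
    have h1 : b x = 1 := h0
    refine ⟨hx.1.2, ?_⟩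
    change b x * (g ∘ c) x = _
    rw [h1, one_mul]
    rfl
  · intro x hx v
    have e1 : (fun x => b x * (g ∘ c) x) =ᶠ[𝓝 x] g ∘ c := by
      filter_upwards [isOpen_interior.mem_nhds hx.2] with y hy
      have h0 : y ∈ {x | b x = 1} := interior_subset hy
      have h1 : b y = 1 := h0
      rw [h1, one_mul]
    have hcd : MDifferentiableAt (𝓡 d) (𝓡 d) c x := (hcs x hx.1.1).mdifferentiableAt (by simp)
    have hgd : MDifferentiableAt (𝓡 d) 𝓘(ℝ, ℝ) g (c x) :=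
      (hgs _ hx.1.2).mdifferentiableAt (by simp)
    unfold dd
    rw [e1.mfderiv_eq, mfderiv_comp x hgd hcd, mfderiv_eq_fderiv]
    rfl

end Pool.Agent.Y614.NT
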