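import Pool.Agent.Y517.NT.An

/-!
Maximal independent families of analytic functions vanishing on a set.
-/

set_option autoImplicit false

open Set Filter Topology

namespace Pool.Agent.Y614.NT

open Pool.Agent.Y517.NT

/-- `r` analytic functions which vanish on `T`, with independent differentials at a point of `T` -/
def Q {F : Type} [NormedAddCommGroup F] [NormedSpace ℝ F] (U T : Set F) (r : ℕ) : Prop :=
  ∃ x ∈ T, ∃ V : Set F, IsOpen V ∧ x ∈ V ∧ V ⊆ U ∧ ∃ g : Fin r → F → ℝ,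
    (∀ i, AnalyticOnNhd ℝ (g i) V) ∧ (∀ y ∈ T ∩ V, ∀ i, g i y = 0) ∧
    LinearIndependent ℝ (fun i => fderiv ℝ (g i) x)

theorem t_MAX : S_MAX := by
  intro F _ _ _ U T hU hTU hT
  classical
  obtain ⟨D, hD⟩ : ∃ D : ℕ, D = Module.finrank ℝ (F →L[ℝ] ℝ) := ⟨_, rfl⟩
  have hb : ∀ r, Q U T r → r ≤ D := by
    rintro r ⟨x, -, V, -, -, -, g, -, -, hg⟩
    have h := hg.fintype_card_le_finrank
    rwa [Fintype.card_fin, ← hD] at h
  have h0 : Q U T 0 := by
    obtain ⟨x, hx⟩ := hT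
    exact ⟨x, hx, U, hU, hTU hx, subset_rfl, fun i => i.elim0, fun i => i.elim0,
      fun _ _ i => i.elim0, linearIndependent_empty_type⟩
  obtain ⟨r, hr⟩ : ∃ r, r = Nat.findGreatest (Q U T) D := ⟨_, rfl⟩
  have hr1 : Q U T r := by
    rw [hr]
    exact Nat.findGreatest_spec (Nat.zero_le D) h0
  have hr2 : ∀ s, Q U T s → s ≤ r := by
    intro s hs
    rw [hr]
    exact Nat.le_findGreatest (hb s hs) hs
  obtain ⟨x, hx, V, hV, hxV, hVU, g, hg, hg0, hgi⟩ := hr1
  have hc : ContinuousOn (fun y => fun i => fderiv ℝ (g i) y) V :=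
    continuousOn_pi.2 fun i => (hg i).fderiv.continuousOn
  have hV' : IsOpen (V ∩ (fun y => fun i => fderiv ℝ (g i) y) ⁻¹'
      {f : Fin r → F →L[ℝ] ℝ | LinearIndependent ℝ f}) :=
    hc.isOpen_inter_preimage hV isOpen_setOf_linearIndependent
  refine ⟨x, hx, r, g, V ∩ (fun y => fun i => fderiv ℝ (g i) y) ⁻¹'
      {f : Fin r → F →L[ℝ] ℝ | LinearIndependent ℝ f}, ⟨hxV, hgi⟩,
      inter_subset_left.trans hVU, hV', fun i => (hg i).mono inter_subset_left,
      fun y hy => hy.2, fun y hy i => hg0 y ⟨hy.1, hy.2.1⟩ i, ?_⟩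
  intro W φ hW hWV hφ hφ0 y hy
  by_contra hcon
  have h1 : Q U T (r + 1) := by
    refine ⟨y, hy.1, W, hW, hy.2, hWV.trans (inter_subset_left.trans hVU), Fin.cons φ g, ?_, ?_, ?_⟩
    · intro i
      refine Fin.cases ?_ (fun j => ?_) i
      · exact hφ
      · exact (hg j).mono (hWV.trans inter_subset_left)
    · intro z hz i
      refine Fin.cases ?_ (fun j => ?_) i
      · exact hφ0 z hz
      · exact hg0 z ⟨hz.1, (hWV hz.2).1⟩ j
    · have e : (fun i => fderiv ℝ ((Fin.cons φ g : Fin (r + 1) → F → ℝ) i) y) =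
          Fin.cons (fderiv ℝ φ y) (fun i => fderiv ℝ (g i) y) := by
        funext i
        refine Fin.cases ?_ (fun j => ?_) i
        · rfl
        · rfl
      rw [e, linearIndependent_finCons]
      exact ⟨(hWV hy.2).2, hcon⟩
  have h2 := hr2 _ h1
  omega

end Pool.Agent.Y614.NT
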